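import Mathlib

/-! The pure sieve with truncation at a fixed number of prime factors. -/

namespace Pool.Agent.H373R2.T7
open Finset

/-- elementary symmetric sums -/
noncomputable def es (x : ℕ → ℝ) (T : Finset ℕ) (r : ℕ) : ℝ := ∑ S ∈ T.powersetCard r, ∏ p ∈ S, x p

noncomputable def bonf (x : ℕ → ℝ) (T : Finset ℕ) (r : ℕ) : ℝ := ∑ j ∈ range r, (-1 : ℝ) ^ j * es x T j

lemma es_zero (x : ℕ → ℝ) (T : Finset ℕ) : es x T 0 = 1 := by simp [es]

lemma es_nonneg {x : ℕ → ℝ} {T : Finset ℕ} (hx : ∀ p ∈ T, 0 ≤ x p) (r : ℕ) : 0 ≤ es x T r :=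
  sum_nonneg fun S hS => prod_nonneg fun p hp => hx p ((mem_powersetCard.1 hS).1 hp)

lemma es_insert (x : ℕ → ℝ) {T : Finset ℕ} {a : ℕ} (ha : a ∉ T) (r : ℕ) :
    es x (insert a T) (r + 1) = es x T (r + 1) + x a * es x T r := by
  unfold es
  rw [powersetCard_succ_insert ha, sum_union, sum_image]
  · rw [mul_sum]
    congr 1
    apply sum_congr rfl
    intro S hS
    rw [prod_insert]
    exact fun h => ha ((mem_powersetCard.1 hS).1 h)
  · intro S hS S' hS' h
    have h1 : a ∉ S := fun h => ha ((mem_powersetCard.1 hS).1 h)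
    have h2 : a ∉ S' := fun h => ha ((mem_powersetCard.1 hS').1 h)
    rw [← erase_insert h1, ← erase_insert h2, h]
  · rw [disjoint_left]
    intro S hS hS'
    rw [mem_image] at hS'
    obtain ⟨S', _, rfl⟩ := hS'
    exact ha ((mem_powersetCard.1 hS).1 (mem_insert_self _ _))

lemma bonf_insert (x : ℕ → ℝ) {T : Finset ℕ} {a : ℕ} (ha : a ∉ T) (r : ℕ) :
    bonf x (insert a T) (r + 1) = bonf x T (r + 1) - x a * bonf x T r := by
  unfold bonf
  rw [sum_range_succ', sum_range_succ', mul_sum]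
  simp only [es_zero, pow_zero, one_mul]
  have : ∀ j ∈ range r, (-1 : ℝ) ^ (j + 1) * es x (insert a T) (j + 1) =
      (-1 : ℝ) ^ (j + 1) * es x T (j + 1) - x a * ((-1 : ℝ) ^ j * es x T j) := by
    intro j _
    rw [es_insert x ha]; ring
  rw [sum_congr rfl this, sum_sub_distrib]
  ring

theorem bonf_bound (x : ℕ → ℝ) (T : Finset ℕ) (hx : ∀ p ∈ T, 0 ≤ x p ∧ x p ≤ 1) (r : ℕ) :
    |∏ p ∈ T, (1 - x p) - bonf x T r| ≤ es x T r := by
  induction T using Finset.induction_on generalizing r with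
  | empty =>
    rcases r with _ | r
    · simp [bonf, es]
    · have h0 : ∀ j : ℕ, es x ∅ (j + 1) = 0 := by
        intro j
        unfold es
        rw [powersetCard_eq_empty.2 (by simp), sum_empty]
      have h1 : bonf x ∅ (r + 1) = 1 := by
        unfold bonf
        rw [sum_range_succ']
        have : ∀ j ∈ range r, (-1 : ℝ) ^ (j + 1) * es x ∅ (j + 1) = 0 := by
          intro j _
          rw [h0, mul_zero]
        rw [sum_congr rfl this]
        simp [es]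
      rw [h1, h0]
      simp
  | insert a T ha ih =>
    have hT : ∀ p ∈ T, 0 ≤ x p ∧ x p ≤ 1 := fun p hp => hx p (mem_insert_of_mem hp)
    have hxa := hx a (mem_insert_self _ _)
    rcases r with _ | r
    · simp only [bonf, range_zero, sum_empty, sub_zero, es_zero]
      rw [abs_of_nonneg (prod_nonneg fun p hp => by linarith [(hx p hp).2])]
      exact prod_le_one (fun p hp => by linarith [(hx p hp).2]) (fun p hp => by linarith [(hx p hp).1])
    · rw [bonf_insert x ha, es_insert x ha, prod_insert ha]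
      have h1 := ih hT (r + 1)
      have h2 := ih hT r
      have h3 : (1 - x a) * ∏ p ∈ T, (1 - x p) - (bonf x T (r + 1) - x a * bonf x T r) =
          (∏ p ∈ T, (1 - x p) - bonf x T (r + 1)) - x a * (∏ p ∈ T, (1 - x p) - bonf x T r) := by ring
      rw [h3]
      refine (abs_sub _ _).trans ?_
      rw [abs_mul, abs_of_nonneg hxa.1]
      exact add_le_add h1 (mul_le_mul_of_nonneg_left h2 hxa.1)

theorem es_le {x : ℕ → ℝ} {T : Finset ℕ} (hx : ∀ p ∈ T, 0 ≤ x p) (r : ℕ) :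
    es x T r ≤ Real.exp (3 * ∑ p ∈ T, x p - r) := by
  have he : (0 : ℝ) < Real.exp 1 := Real.exp_pos 1
  have h1 : Real.exp 1 ^ r * es x T r ≤ ∏ p ∈ T, (1 + Real.exp 1 * x p) := by
    rw [prod_one_add]
    unfold es
    rw [mul_sum]
    have h2 : ∀ S ∈ T.powersetCard r, Real.exp 1 ^ r * ∏ p ∈ S, x p = ∏ p ∈ S, (Real.exp 1 * x p) := by
      intro S hS
      rw [prod_mul_distrib, prod_const, (mem_powersetCard.1 hS).2]
    rw [sum_congr rfl h2]
    apply sum_le_sum_of_subset_of_nonneg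
    · intro S hS
      exact mem_powerset.2 (mem_powersetCard.1 hS).1
    · intro S hS _
      exact prod_nonneg fun p hp => mul_nonneg he.le (hx p (mem_powerset.1 hS hp))
  have h2 : ∏ p ∈ T, (1 + Real.exp 1 * x p) ≤ Real.exp (3 * ∑ p ∈ T, x p) := by
    rw [mul_sum, Real.exp_sum]
    apply prod_le_prod
    · intro p hp
      have := hx p hp
      positivity
    · intro p hp
      have h3 := Real.add_one_le_exp (Real.exp 1 * x p)
      have h4 : Real.exp 1 * x p ≤ 3 * x p :=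
        mul_le_mul_of_nonneg_right (by linarith [Real.exp_one_lt_d9]) (hx p hp)
      have h5 := Real.exp_le_exp.2 h4
      linarith
  have h3 : Real.exp 1 ^ r * es x T r ≤ Real.exp (3 * ∑ p ∈ T, x p) := h1.trans h2
  have h4 : Real.exp 1 ^ r = Real.exp (r : ℝ) := by
    rw [← Real.exp_nat_mul, mul_one]
  rw [h4] at h3
  rw [Real.exp_sub, le_div_iff₀ (Real.exp_pos _), mul_comm]
  exact h3

/-- pointwise form -/
lemma bonf_ind {ι : Type*} (E : ℕ → ι → Prop) (T : Finset ℕ) (r : ℕ) (i : ι) :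
    by classical exact |(if ∀ p ∈ T, ¬ E p i then (1 : ℝ) else 0) -
      ∑ j ∈ range r, (-1 : ℝ) ^ j * ∑ S ∈ T.powersetCard j, if ∀ p ∈ S, E p i then (1 : ℝ) else 0| ≤
      ∑ S ∈ T.powersetCard r, if ∀ p ∈ S, E p i then (1 : ℝ) else 0 := by
  classical
  set x : ℕ → ℝ := fun p => if E p i then 1 else 0 with hx
  have h1 : ∀ S : Finset ℕ, ∏ p ∈ S, x p = if ∀ p ∈ S, E p i then (1 : ℝ) else 0 := by
    intro S
    rw [hx]
    exact prod_boole
  have h2 : ∏ p ∈ T, (1 - x p) = if ∀ p ∈ T, ¬ E p i then (1 : ℝ) else 0 := by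
    rw [← prod_boole]
    apply prod_congr rfl
    intro p _
    rw [hx]
    by_cases h : E p i <;> simp [h]
  have h3 := bonf_bound x T (fun p _ => by
    rw [hx]
    by_cases h : E p i <;> simp [h]) r
  rw [h2] at h3
  unfold bonf es at h3
  simp only [h1] at h3
  exact h3

open Classical in
/-- the weighted pure sieve -/
theorem sieve_gen {ι : Type*} (s : Finset ι) (w : ι → ℝ) (hw : ∀ i ∈ s, 0 ≤ w i) (E : ℕ → ι → Prop)
    (T : Finset ℕ) (g : ℕ → ℝ) (hg : ∀ p ∈ T, 0 ≤ g p ∧ g p ≤ 1) (X : ℝ) (hX : 0 ≤ X)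
    (R : Finset ℕ → ℝ) (r : ℕ)
    (hR : ∀ S ⊆ T, S.card ≤ r → |∑ i ∈ s with ∀ p ∈ S, E p i, w i - X * ∏ p ∈ S, g p| ≤ R S) :
    |∑ i ∈ s with ∀ p ∈ T, ¬ E p i, w i - X * ∏ p ∈ T, (1 - g p)| ≤
      ∑ j ∈ range (r + 1), ∑ S ∈ T.powersetCard j, R S + 2 * X * es g T r := by
  set W : Finset ℕ → ℝ := fun S => ∑ i ∈ s with ∀ p ∈ S, E p i, w i with hW
  have h1 : |∑ i ∈ s with ∀ p ∈ T, ¬ E p i, w i - ∑ j ∈ range r, (-1 : ℝ) ^ j * ∑ S ∈ T.powersetCard j, W S| ≤
      ∑ S ∈ T.powersetCard r, W S := by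
    have e1 : ∑ i ∈ s with ∀ p ∈ T, ¬ E p i, w i = ∑ i ∈ s, w i * (if ∀ p ∈ T, ¬ E p i then (1 : ℝ) else 0) := by
      rw [sum_filter]
      apply sum_congr rfl
      intro i _
      split_ifs <;> simp
    have e2 : ∀ S, W S = ∑ i ∈ s, w i * (if ∀ p ∈ S, E p i then (1 : ℝ) else 0) := by
      intro S
      rw [hW]
      simp only
      rw [sum_filter]
      apply sum_congr rfl
      intro i _
      split_ifs <;> simp
    have e3 : ∑ j ∈ range r, (-1 : ℝ) ^ j * ∑ S ∈ T.powersetCard j, W S =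
        ∑ i ∈ s, w i * ∑ j ∈ range r, (-1 : ℝ) ^ j * ∑ S ∈ T.powersetCard j, if ∀ p ∈ S, E p i then (1 : ℝ) else 0 := by
      simp only [e2, mul_sum]
      rw [sum_comm]
      have : ∀ j ∈ range r, ∑ S ∈ T.powersetCard j, ∑ i ∈ s, (-1 : ℝ) ^ j * (w i * (if ∀ p ∈ S, E p i then (1 : ℝ) else 0)) =
          ∑ i ∈ s, ∑ S ∈ T.powersetCard j, w i * ((-1 : ℝ) ^ j * (if ∀ p ∈ S, E p i then (1 : ℝ) else 0)) := by
        intro j _
        rw [sum_comm]
        apply sum_congr rfl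
        intro i _
        apply sum_congr rfl
        intro S _
        ring
      rw [sum_comm, sum_congr rfl this, sum_comm]
    have e4 : ∑ S ∈ T.powersetCard r, W S = ∑ i ∈ s, w i * ∑ S ∈ T.powersetCard r, if ∀ p ∈ S, E p i then (1 : ℝ) else 0 := by
      simp only [e2, mul_sum]
      rw [sum_comm]
    rw [e1, e3, e4, ← sum_sub_distrib]
    refine (abs_sum_le_sum_abs _ _).trans (sum_le_sum fun i hi => ?_)
    rw [← mul_sub, abs_mul, abs_of_nonneg (hw i hi)]
    exact mul_le_mul_of_nonneg_left (bonf_ind E T r i) (hw i hi)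
  have hb := bonf_bound g T hg r
  have h2 : |∑ j ∈ range r, (-1 : ℝ) ^ j * ∑ S ∈ T.powersetCard j, W S - X * bonf g T r| ≤
      ∑ j ∈ range r, ∑ S ∈ T.powersetCard j, R S := by
    unfold bonf es
    rw [mul_sum, ← sum_sub_distrib]
    refine (abs_sum_le_sum_abs _ _).trans (sum_le_sum fun j hj => ?_)
    have e1 : (-1 : ℝ) ^ j * ∑ S ∈ T.powersetCard j, W S - X * ((-1 : ℝ) ^ j * ∑ S ∈ T.powersetCard j, ∏ p ∈ S, g p) =
        (-1 : ℝ) ^ j * ∑ S ∈ T.powersetCard j, (W S - X * ∏ p ∈ S, g p) := by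
      rw [sum_sub_distrib, ← mul_sum]; ring
    rw [e1, abs_mul, abs_pow, abs_neg, abs_one, one_pow, one_mul]
    refine (abs_sum_le_sum_abs _ _).trans (sum_le_sum fun S hS => ?_)
    rw [mem_powersetCard] at hS
    rw [mem_range] at hj
    exact hR S hS.1 (by omega)
  have h3 : ∑ S ∈ T.powersetCard r, W S ≤ ∑ S ∈ T.powersetCard r, R S + X * es g T r := by
    unfold es
    rw [mul_sum, ← sum_add_distrib]
    apply sum_le_sum
    intro S hS
    rw [mem_powersetCard] at hS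
    have := (abs_le.1 (hR S hS.1 (by omega))).2
    linarith
  have h4 : |X * bonf g T r - X * ∏ p ∈ T, (1 - g p)| ≤ X * es g T r := by
    rw [← mul_sub, abs_mul, abs_of_nonneg hX, abs_sub_comm]
    exact mul_le_mul_of_nonneg_left hb hX
  rw [sum_range_succ]
  have h5 : ∑ i ∈ s with ∀ p ∈ T, ¬ E p i, w i - X * ∏ p ∈ T, (1 - g p) =
      (∑ i ∈ s with ∀ p ∈ T, ¬ E p i, w i - ∑ j ∈ range r, (-1 : ℝ) ^ j * ∑ S ∈ T.powersetCard j, W S) +
      (∑ j ∈ range r, (-1 : ℝ) ^ j * ∑ S ∈ T.powersetCard j, W S - X * bonf g T r) +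
      (X * bonf g T r - X * ∏ p ∈ T, (1 - g p)) := by ring
  rw [h5]
  refine (abs_add_le _ _).trans ?_
  have := abs_add_le (∑ i ∈ s with ∀ p ∈ T, ¬ E p i, w i - ∑ j ∈ range r, (-1 : ℝ) ^ j * ∑ S ∈ T.powersetCard j, W S)
    (∑ j ∈ range r, (-1 : ℝ) ^ j * ∑ S ∈ T.powersetCard j, W S - X * bonf g T r)
  linarith

/-- the weighted pure sieve, with arbitrary decidability instances -/
theorem sieve_gen' {ι : Type*} (s : Finset ι) (w : ι → ℝ) (hw : ∀ i ∈ s, 0 ≤ w i) (E : ℕ → ι → Prop)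
    (T : Finset ℕ) [dS : ∀ S : Finset ℕ, DecidablePred fun i => ∀ p ∈ S, E p i]
    [dT : DecidablePred fun i => ∀ p ∈ T, ¬ E p i] (g : ℕ → ℝ) (hg : ∀ p ∈ T, 0 ≤ g p ∧ g p ≤ 1) (X : ℝ) (hX : 0 ≤ X)
    (R : Finset ℕ → ℝ) (r : ℕ)
    (hR : ∀ S ⊆ T, S.card ≤ r → |∑ i ∈ s with ∀ p ∈ S, E p i, w i - X * ∏ p ∈ S, g p| ≤ R S) :
    |∑ i ∈ s with ∀ p ∈ T, ¬ E p i, w i - X * ∏ p ∈ T, (1 - g p)| ≤
      ∑ j ∈ range (r + 1), ∑ S ∈ T.powersetCard j, R S + 2 * X * es g T r := by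
  have h := sieve_gen s w hw E T g hg X hX R r (fun S h1 h2 => by convert hR S h1 h2)
  convert h

/-- number of small subsets -/
lemma card_small (T : Finset ℕ) (r : ℕ) : ((∑ j ∈ range (r + 1), (T.powersetCard j).card : ℕ) : ℝ) ≤ ((T.card : ℝ) + 1) ^ r := by
  have h1 : ∑ j ∈ range (r + 1), (T.powersetCard j).card ≤ (T.card + 1) ^ r := by
    have h2 : (T.card + 1) ^ r = ∑ j ∈ range (r + 1), T.card ^ j * r.choose j := by
      rw [add_pow]
      apply sum_congr rfl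
      intro j _
      rw [one_pow, mul_one]; simp
    rw [h2]
    apply sum_le_sum
    intro j hj
    rw [mem_range] at hj
    rw [card_powersetCard]
    calc T.card.choose j ≤ T.card ^ j := Nat.choose_le_pow _ _
      _ = T.card ^ j * 1 := (mul_one _).symm
      _ ≤ T.card ^ j * r.choose j := Nat.mul_le_mul_left _ (Nat.choose_pos (by omega))
  exact_mod_cast h1

/-- choice of the truncation parameter -/
theorem choice (c E U M : ℕ) : ∃ N0 : ℕ, ∀ N : ℕ, N0 ≤ N → ∀ z : ℕ, (z : ℝ) ≤ Real.log N ^ E →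
    ∃ r : ℕ, Real.exp (3 * (c * (1 + Real.log z)) - r) ≤ 1 / Real.log N ^ U ∧ (((z + 1) ^ r) ^ M : ℝ) ≤ N ∧
      ∀ k : ℕ, (k : ℝ) ^ r ≤ Real.log N ^ ((3 * (c * (1 + E)) + U + 1) * k) := by
  -- large parameter
  set C0 : ℕ := 3 * (c * (1 + E)) + U with hC0
  have hlim : Filter.Tendsto (fun N : ℕ => Real.log (N : ℝ)) Filter.atTop Filter.atTop :=
    Real.tendsto_log_atTop.comp (tendsto_natCast_atTop_atTop (R := ℝ))
  have h1 : ∀ᶠ N : ℕ in Filter.atTop, 1 ≤ Real.log (Real.log N) := by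
    exact ((Real.tendsto_log_atTop.comp hlim).eventually_ge_atTop 1)
  have h2 : ∀ᶠ N : ℕ in Filter.atTop, ((C0 + 1) * M * (E + 1)) * Real.log (Real.log N) ^ 2 ≤ Real.log N := by
    have h3 := (Real.isLittleO_pow_log_id_atTop (n := 2)).bound (show (0 : ℝ) < 1 / ((C0 + 1) * M * (E + 1) + 1) by positivity)
    have h4 := hlim.eventually h3
    filter_upwards [h4, hlim.eventually_ge_atTop 1] with N h5 h6
    simp only [id] at h5
    rw [Real.norm_of_nonneg (by positivity), Real.norm_of_nonneg (by linarith), one_div, inv_mul_eq_div,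
      le_div_iff₀ (by positivity)] at h5
    have h7 : 0 ≤ Real.log (Real.log N) ^ 2 := by positivity
    nlinarith
  obtain ⟨N0, h0⟩ := Filter.eventually_atTop.1 (h1.and (h2.and (hlim.eventually_ge_atTop 1)))
  refine ⟨max N0 1, fun N hN z hz => ?_⟩
  obtain ⟨ha, hb, hL⟩ := h0 N (le_trans (le_max_left _ _) hN)
  have hN1 : 1 ≤ N := le_trans (le_max_right _ _) hN
  have hN0 : (0 : ℝ) < N := by exact_mod_cast hN1
  set L := Real.log N with hLd
  have hL0 : 0 < L := by linarith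
  set ℓ := Real.log L with hℓ
  refine ⟨⌈(C0 : ℝ) * ℓ⌉₊, ?_, ?_, ?_⟩
  · have h3 : Real.log z ≤ E * ℓ := by
      rcases Nat.eq_zero_or_pos z with h | h
      · rw [h]; simp; positivity
      · have h4 : Real.log z ≤ Real.log (L ^ E) := Real.log_le_log (by exact_mod_cast h) hz
        rw [Real.log_pow] at h4
        exact h4
    have h4 : (C0 : ℝ) * ℓ ≤ (⌈(C0 : ℝ) * ℓ⌉₊ : ℝ) := Nat.le_ceil _
    have h5 : 1 / L ^ U = Real.exp (-(U * ℓ)) := by
      rw [Real.exp_neg, mul_comm, Real.exp_mul, hℓ, Real.exp_log hL0, Real.rpow_natCast, one_div]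
    rw [h5]
    apply Real.exp_le_exp.2
    have h6 : (c : ℝ) * (1 + Real.log z) ≤ c * ((1 + E) * ℓ) := by
      apply mul_le_mul_of_nonneg_left _ (Nat.cast_nonneg _)
      linarith
    have h7 : (C0 : ℝ) * ℓ = 3 * (c * ((1 + E) * ℓ)) + U * ℓ := by
      rw [hC0]; push_cast; ring
    linarith
  · rw [← Real.log_le_log_iff (by positivity) hN0, Real.log_pow, Real.log_pow, ← hLd]
    have h3 : (⌈(C0 : ℝ) * ℓ⌉₊ : ℝ) ≤ (C0 + 1) * ℓ := by
      have := (Nat.ceil_lt_add_one (show 0 ≤ (C0 : ℝ) * ℓ by positivity)).le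
      linarith
    have h4 : Real.log ((z : ℝ) + 1) ≤ (E + 1) * ℓ := by
      have h5 : (z : ℝ) + 1 ≤ L ^ (E + 1) := by
        have h6 : 1 ≤ L ^ E := one_le_pow₀ hL
        have h7 : 2 ≤ L := by
          have h8 : Real.exp 1 ≤ L := by
            rw [← Real.exp_log hL0]
            exact Real.exp_le_exp.2 ha
          have := Real.exp_one_gt_d9
          linarith
        rw [pow_succ]
        nlinarith
      have h6 := Real.log_le_log (by positivity) h5
      rw [Real.log_pow] at h6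
      push_cast at h6
      exact h6
    have h5 : 0 ≤ Real.log ((z : ℝ) + 1) := Real.log_nonneg (by have : (0 : ℝ) ≤ z := Nat.cast_nonneg _; linarith)
    calc (M : ℝ) * ((⌈(C0 : ℝ) * ℓ⌉₊ : ℝ) * Real.log ((z : ℝ) + 1)) ≤ M * (((C0 + 1) * ℓ) * ((E + 1) * ℓ)) := by
          gcongr
      _ = ((C0 + 1) * M * (E + 1)) * ℓ ^ 2 := by ring
      _ ≤ L := hb
  · intro k
    rcases Nat.eq_zero_or_pos k with hk | hk
    · have h3 : ⌈(C0 : ℝ) * ℓ⌉₊ = 0 ∨ ⌈(C0 : ℝ) * ℓ⌉₊ ≠ 0 := by tauto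
      rw [hk]
      rcases h3 with h3 | h3
      · rw [h3]; simp
      · rw [Nat.cast_zero, zero_pow h3]; positivity
    · have h3 : (⌈(C0 : ℝ) * ℓ⌉₊ : ℝ) ≤ (C0 + 1) * ℓ := by
        have := (Nat.ceil_lt_add_one (show 0 ≤ (C0 : ℝ) * ℓ by positivity)).le
        linarith
      have hk0 : (0 : ℝ) < k := by exact_mod_cast hk
      have hk1 : (1 : ℝ) ≤ k := by exact_mod_cast hk
      have hlk : Real.log k ≤ k := by have := Real.log_le_sub_one_of_pos hk0; linarith
      have hlk0 : 0 ≤ Real.log k := Real.log_nonneg hk1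
      rw [← Real.log_le_log_iff (by positivity) (by positivity), Real.log_pow, Real.log_pow, ← hℓ]
      have e : (((3 * (c * (1 + E)) + U + 1) * k : ℕ) : ℝ) = ((C0 : ℝ) + 1) * k := by rw [hC0]; push_cast; ring
      rw [e]
      calc (⌈(C0 : ℝ) * ℓ⌉₊ : ℝ) * Real.log k ≤ ((C0 + 1) * ℓ) * k := by gcongr
        _ = _ := by ring

end Pool.Agent.H373R2.T7
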