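import Mathlib
import Pool.Agent.H27.G.R_seed8.H373R2.T7.LamMaj
import Pool.Agent.H27.G.R_seed8.H373R2.T7.LamZ2

/-! The exponential sum of the von Mangoldt function minus its sieve model, at every point. -/

namespace Pool.Agent.H373R2.T7
open Finset
open Pool.Agent.H807R2.Dav

lemma abel_ee (F : ℕ → ℂ) (γ M0 : ℝ) (x : ℕ)
    (hA : ∀ y : ℕ, y ≤ x → ‖∑ n ∈ Icc 1 y, F n‖ ≤ M0) :
    ‖∑ n ∈ Icc 1 x, F n * ee (n * γ)‖ ≤ M0 * (1 + x * ‖ee γ - 1‖) := by
  have key : ∀ y : ℕ, y ≤ x → ‖∑ n ∈ Icc 1 y, F n * ee (n * γ) -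
      (∑ n ∈ Icc 1 y, F n) * ee (y * γ)‖ ≤ M0 * (y * ‖ee γ - 1‖) := by
    intro y
    induction y with
    | zero => intro _; simp
    | succ y ih =>
      intro hy
      have h1 := ih (by omega)
      rw [sum_Icc_succ_top (by omega), sum_Icc_succ_top (by omega)]
      have h2 : ee (((y + 1 : ℕ) : ℝ) * γ) = ee (y * γ) * ee γ := by
        rw [← ee_add]
        congr 1
        push_cast
        ring
      rw [h2]
      have h3 : (∑ n ∈ Icc 1 y, F n * ee (n * γ) + F (y + 1) * (ee (y * γ) * ee γ)) -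
          (∑ n ∈ Icc 1 y, F n + F (y + 1)) * (ee (y * γ) * ee γ) =
          (∑ n ∈ Icc 1 y, F n * ee (n * γ) - (∑ n ∈ Icc 1 y, F n) * ee (y * γ)) -
          (∑ n ∈ Icc 1 y, F n) * ee (y * γ) * (ee γ - 1) := by ring
      rw [h3]
      refine (norm_sub_le _ _).trans ?_
      have h4 : ‖(∑ n ∈ Icc 1 y, F n) * ee (y * γ) * (ee γ - 1)‖ ≤ M0 * ‖ee γ - 1‖ := by
        rw [norm_mul, norm_mul, norm_ee, mul_one]
        exact mul_le_mul_of_nonneg_right (hA y (by omega)) (norm_nonneg _)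
      push_cast
      linarith
  have h1 := key x le_rfl
  have h2 : ∑ n ∈ Icc 1 x, F n * ee (n * γ) = (∑ n ∈ Icc 1 x, F n * ee (n * γ) -
      (∑ n ∈ Icc 1 x, F n) * ee (x * γ)) + (∑ n ∈ Icc 1 x, F n) * ee (x * γ) := by ring
  rw [h2]
  refine (norm_add_le _ _).trans ?_
  have h3 : ‖(∑ n ∈ Icc 1 x, F n) * ee (x * γ)‖ ≤ M0 := by
    rw [norm_mul, norm_ee, mul_one]
    exact hA x le_rfl
  linarith

/-- sums twisted by a rational frequency from sums in progressions -/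
lemma rat_twist (f : ℕ → ℝ) (y q : ℕ) (hq : 1 ≤ q) (b : ℤ) (δ : ℝ)
    (h : ∀ c : ℕ, |∑ n ∈ (Icc 1 y).filter (fun n => n ≡ c [MOD q]), f n| ≤ δ) :
    ‖∑ n ∈ Icc 1 y, ((f n : ℝ) : ℂ) * ee (n * ((b : ℝ) / q))‖ ≤ q * δ := by
  have hq0 : (q : ℝ) ≠ 0 := by
    have : (0 : ℝ) < q := by exact_mod_cast hq
    exact this.ne'
  have h1 : ∑ n ∈ Icc 1 y, ((f n : ℝ) : ℂ) * ee (n * ((b : ℝ) / q)) =
      ∑ c ∈ range q, (((∑ n ∈ (Icc 1 y).filter (fun n => n ≡ c [MOD q]), f n : ℝ)) : ℂ) * ee (c * ((b : ℝ) / q)) := by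
    rw [← sum_fiberwise_of_maps_to (s := Icc 1 y) (t := range q)
      (g := fun n => n % q) (fun n _ => mem_range.2 (Nat.mod_lt _ (by omega)))]
    apply sum_congr rfl
    intro c hc
    rw [mem_range] at hc
    push_cast
    rw [sum_mul]
    have h2 : (Icc 1 y).filter (fun n => n % q = c) = (Icc 1 y).filter (fun n => n ≡ c [MOD q]) := by
      apply filter_congr
      intro n _
      unfold Nat.ModEq
      rw [Nat.mod_eq_of_lt hc]
    rw [h2]
    apply sum_congr rfl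
    intro n hn
    rw [mem_filter] at hn
    have h3 : n % q = c := by
      have h4 := hn.2
      unfold Nat.ModEq at h4
      rwa [Nat.mod_eq_of_lt hc] at h4
    obtain ⟨k, hk⟩ : ∃ k : ℕ, n = c + q * k := by
      have h6 := Nat.mod_add_div n q
      rw [h3] at h6
      exact ⟨_, h6.symm⟩
    congr 1
    have h6 : (n : ℝ) * ((b : ℝ) / q) = c * ((b : ℝ) / q) + (((b * (k : ℤ) : ℤ)) : ℝ) := by
      rw [hk]
      push_cast
      field_simp
    rw [h6, ee_add_int]
  rw [h1]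
  refine (norm_sum_le _ _).trans ?_
  have h2 : ∀ c ∈ range q, ‖(((∑ n ∈ (Icc 1 y).filter (fun n => n ≡ c [MOD q]), f n : ℝ)) : ℂ) * ee (c * ((b : ℝ) / q))‖ ≤ δ := by
    intro c _
    rw [norm_mul, norm_ee, mul_one, Complex.norm_real, Real.norm_eq_abs]
    exact h c
  refine (sum_le_sum h2).trans ?_
  rw [sum_const, card_range, nsmul_eq_mul]

theorem sup_diff (U : ℕ) : ∃ B : ℕ, ∀ E : ℕ, ∃ N0 : ℕ, ∀ N : ℕ, N0 ≤ N → ∀ z : ℕ, Real.log N ^ B ≤ z →
    (z : ℝ) ≤ Real.log N ^ E → ∀ α : ℝ,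
    ‖∑ n ∈ Icc 1 N, ((ArithmeticFunction.vonMangoldt n - lamz z n : ℝ) : ℂ) * ee ((n : ℝ) * α)‖ ≤ N / Real.log N ^ U := by
  obtain ⟨B1, m1, hmin⟩ := minor_primes (U + 1)
  set B := B1 + U + 6 with hB
  refine ⟨B, fun E => ?_⟩
  obtain ⟨m2, hlz⟩ := lamz_minor E (U + 1)
  obtain ⟨m3, hap⟩ := lam_ap B (2 * B + U + 1)
  obtain ⟨m4, hapz⟩ := lamz_ap E (2 * B + U + 1)
  obtain ⟨m5, h5⟩ := ev_log' B 2
  obtain ⟨m6, h6⟩ := ev_L' 20
  refine ⟨max (max (max m1 m2) (max m3 m4)) (max (max m5 m6) 4), fun N hN z hz1 hz2 α => ?_⟩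
  have hm1 : m1 ≤ N := le_trans (le_trans (le_trans (le_max_left _ _) (le_max_left _ _)) (le_max_left _ _)) hN
  have hm2 : m2 ≤ N := le_trans (le_trans (le_trans (le_max_right _ _) (le_max_left _ _)) (le_max_left _ _)) hN
  have hm3 : m3 ≤ N := le_trans (le_trans (le_trans (le_max_left _ _) (le_max_right _ _)) (le_max_left _ _)) hN
  have hm4 : m4 ≤ N := le_trans (le_trans (le_trans (le_max_right _ _) (le_max_right _ _)) (le_max_left _ _)) hN
  have a5 := h5 N (le_trans (le_trans (le_trans (le_max_left _ _) (le_max_left _ _)) (le_max_right _ _)) hN)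
  have hL := h6 N (le_trans (le_trans (le_trans (le_max_right _ _) (le_max_left _ _)) (le_max_right _ _)) hN)
  have hN4 : 4 ≤ N := le_trans (le_trans (le_max_right _ _) (le_max_right _ _)) hN
  have hNr : (4 : ℝ) ≤ N := by exact_mod_cast hN4
  have hN0 : (0 : ℝ) < N := by linarith
  set L := Real.log N with hLd
  have hL0 : 0 < L := by linarith
  have hL1 : 1 ≤ L := by linarith
  have hLB1 : 1 ≤ L ^ B := one_le_pow₀ hL1
  have hLB0 : 0 < L ^ B := by positivity
  have hsN : √(N : ℝ) ≤ N := by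
    rw [Real.sqrt_le_left (by positivity)]; nlinarith
  have h2LB : 2 * L ^ B ≤ N := a5.trans hsN
  have hz : 1 ≤ z := by
    have : (1 : ℝ) ≤ z := hLB1.trans hz1
    exact_mod_cast this
  -- Dirichlet
  set Q : ℕ := ⌊(N : ℝ) / L ^ B⌋₊ with hQ
  have hNLB : 2 ≤ (N : ℝ) / L ^ B := by rw [le_div_iff₀ hLB0]; exact h2LB
  have hQpos : 0 < Q := by
    rw [hQ, Nat.floor_pos]
    linarith
  obtain ⟨r, hr1, hr2⟩ := Real.exists_rat_abs_sub_le_and_den_le α hQpos
  set q : ℕ := r.den with hq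
  have hq1 : 1 ≤ q := r.den_pos
  have hq0 : (0 : ℝ) < q := by exact_mod_cast hq1
  have hrq : ((r : ℚ) : ℝ) = (r.num : ℝ) / q := by
    rw [hq]; exact_mod_cast (Rat.num_div_den r).symm
  rw [hrq] at hr1
  have hcop : IsCoprime r.num (q : ℤ) := by
    rw [Int.isCoprime_iff_gcd_eq_one]
    have := r.reduced
    rw [Nat.Coprime] at this
    rw [Int.gcd]
    simpa using this
  have hqQ : (q : ℝ) ≤ N / L ^ B := by
    have h1 : (q : ℝ) ≤ Q := by exact_mod_cast hr2
    exact h1.trans (Nat.floor_le (by positivity))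
  have hsplit : ∑ n ∈ Icc 1 N, ((ArithmeticFunction.vonMangoldt n - lamz z n : ℝ) : ℂ) * ee ((n : ℝ) * α) =
      ∑ n ∈ Icc 1 N, ((ArithmeticFunction.vonMangoldt n : ℝ) : ℂ) * ee ((n : ℝ) * α) -
      ∑ n ∈ Icc 1 N, ((lamz z n : ℝ) : ℂ) * ee ((n : ℝ) * α) := by
    rw [← sum_sub_distrib]
    apply sum_congr rfl
    intro n _
    push_cast
    ring
  rcases le_or_gt (L ^ B) (q : ℝ) with hqb | hqs
  · -- minor
    have hα : |α - (r.num : ℝ) / q| ≤ 1 / (q : ℝ) ^ 2 := by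
      refine hr1.trans ?_
      rw [pow_two]
      apply one_div_le_one_div_of_le (by positivity)
      apply mul_le_mul_of_nonneg_right _ hq0.le
      have h1 : (q : ℝ) ≤ Q := by exact_mod_cast hr2
      linarith
    have hB1 : L ^ B1 ≤ L ^ B := pow_le_pow_right₀ hL1 (by omega)
    have hB2 : L ^ (U + 1 + 5) ≤ L ^ B := pow_le_pow_right₀ hL1 (by omega)
    have h1 := hmin N hm1 q (hB1.trans hqb) (hqQ.trans (div_le_div_of_nonneg_left hN0.le (by positivity) hB1)) r.num hcop α hα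
    have h2 := hlz N hm2 z hz hz2 q (hB2.trans hqb) (hqQ.trans (div_le_div_of_nonneg_left hN0.le (by positivity) hB2)) r.num hcop α hα
    rw [hsplit]
    refine (norm_sub_le _ _).trans ((add_le_add h1 h2).trans ?_)
    rw [← hLd]
    calc (N : ℝ) / L ^ (U + 1) + N / L ^ (U + 1) = 2 / L * (N / L ^ U) := by rw [pow_succ]; field_simp; ring
      _ ≤ 1 * (N / L ^ U) := by
          apply mul_le_mul_of_nonneg_right _ (by positivity)
          rw [div_le_one hL0]; linarith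
      _ = _ := one_mul _
  · -- major
    set f : ℕ → ℝ := fun n => ArithmeticFunction.vonMangoldt n - lamz z n with hf
    have hqz : q ≤ z := by
      have : (q : ℝ) ≤ z := hqs.le.trans hz1
      exact_mod_cast this
    have hAP : ∀ y : ℕ, y ≤ N → ∀ c : ℕ, |∑ n ∈ (Icc 1 y).filter (fun n => n ≡ c [MOD q]), f n| ≤
        2 * (N / L ^ (2 * B + U + 1)) := by
      intro y hy c
      have h1 := hap N hm3 q hq1 hqs.le c y hy
      have h2 := hapz N hm4 z hz hz2 q hq1 hqz c y hy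
      have h3 : ∑ n ∈ (Icc 1 y).filter (fun n => n ≡ c [MOD q]), f n =
          (∑ n ∈ (Icc 1 y).filter (fun n => n ≡ c [MOD q]), ArithmeticFunction.vonMangoldt n -
            (if c.Coprime q then (y : ℝ) / (Nat.totient q : ℝ) else 0)) -
          (∑ n ∈ (Icc 1 y).filter (fun n => n ≡ c [MOD q]), lamz z n -
            (if c.Coprime q then (y : ℝ) / (Nat.totient q : ℝ) else 0)) := by
        rw [hf]
        simp only [sum_sub_distrib]
        ring
      rw [h3]
      refine (abs_sub _ _).trans ?_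
      rw [← hLd] at h1 h2
      linarith
    have hpart : ∀ y : ℕ, y ≤ N → ‖∑ n ∈ Icc 1 y, ((f n : ℝ) : ℂ) * ee (n * ((r.num : ℝ) / q))‖ ≤
        2 * (N / L ^ (B + U + 1)) := by
      intro y hy
      have h1 := rat_twist f y q hq1 r.num (2 * (N / L ^ (2 * B + U + 1))) (hAP y hy)
      refine h1.trans ?_
      calc (q : ℝ) * (2 * (N / L ^ (2 * B + U + 1))) ≤ L ^ B * (2 * (N / L ^ (2 * B + U + 1))) := by gcongr
        _ = 2 * (N / L ^ (B + U + 1)) := by
            have e : L ^ (2 * B + U + 1) = L ^ B * L ^ (B + U + 1) := by rw [← pow_add]; congr 1; ring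
            rw [e]
            field_simp
    set γ : ℝ := α - (r.num : ℝ) / q with hγ
    have h1 := abel_ee (fun n => ((f n : ℝ) : ℂ) * ee (n * ((r.num : ℝ) / q))) γ (2 * (N / L ^ (B + U + 1))) N hpart
    have h2 : ∑ n ∈ Icc 1 N, ((ArithmeticFunction.vonMangoldt n - lamz z n : ℝ) : ℂ) * ee ((n : ℝ) * α) =
        ∑ n ∈ Icc 1 N, (((f n : ℝ) : ℂ) * ee (n * ((r.num : ℝ) / q))) * ee (n * γ) := by
      apply sum_congr rfl
      intro n _
      rw [mul_assoc, ← ee_add]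
      congr 2
      rw [hγ]
      ring
    rw [h2]
    refine h1.trans ?_
    have hβ : |γ| ≤ L ^ B / N := by
      refine hr1.trans ?_
      rw [div_le_div_iff₀ (by positivity) hN0, one_mul]
      have h3 : (N : ℝ) / L ^ B ≤ (Q : ℝ) + 1 := (Nat.lt_floor_add_one _).le
      rw [div_le_iff₀ hLB0] at h3
      have h4 : (1 : ℝ) ≤ q := by exact_mod_cast hq1
      have h5 : ((Q : ℝ) + 1) * L ^ B ≤ ((Q : ℝ) + 1) * L ^ B * q := le_mul_of_one_le_right (by positivity) h4
      calc (N : ℝ) ≤ ((Q : ℝ) + 1) * L ^ B := h3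
        _ ≤ ((Q : ℝ) + 1) * L ^ B * q := h5
        _ = L ^ B * (((Q : ℝ) + 1) * q) := by ring
    have h3 : (N : ℝ) * ‖ee γ - 1‖ ≤ 7 * L ^ B := by
      have h4 : ‖ee γ - 1‖ ≤ 2 * Real.pi * |γ| := by
        have := dd_le γ
        unfold dd at this
        rw [norm_sub_rev] at this
        exact this
      have h5 : |γ| * N ≤ L ^ B := by
        rw [le_div_iff₀ hN0] at hβ
        exact hβ
      have hpi : Real.pi < 3.15 := Real.pi_lt_d2
      have h6 : 0 ≤ |γ| * N := by positivity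
      calc (N : ℝ) * ‖ee γ - 1‖ ≤ N * (2 * Real.pi * |γ|) := by gcongr
        _ = 2 * Real.pi * (|γ| * N) := by ring
        _ ≤ 7 * (|γ| * N) := by
            apply mul_le_mul_of_nonneg_right _ h6
            linarith
        _ ≤ 7 * L ^ B := by linarith
    calc 2 * (N / L ^ (B + U + 1)) * (1 + N * ‖ee γ - 1‖) ≤ 2 * (N / L ^ (B + U + 1)) * (8 * L ^ B) := by
          apply mul_le_mul_of_nonneg_left _ (by positivity)
          linarith
      _ = (16 / L) * (N / L ^ U) := by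
          have e : L ^ (B + U + 1) = L ^ B * L ^ U * L := by rw [← pow_add, ← pow_succ]
          rw [e]
          field_simp
          ring
      _ ≤ 1 * (N / L ^ U) := by
          apply mul_le_mul_of_nonneg_right _ (by positivity)
          rw [div_le_one hL0]
          linarith
      _ = N / L ^ U := one_mul _

end Pool.Agent.H373R2.T7
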