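import Mathlib
import Pool.Agent.H27.G.R_seed8.H373R2.T7.BilF
import Pool.Agent.H27.G.R_seed8.H373R2.T7.SupE2
import Pool.Agent.H27.G.R_seed8.H373R2.NB.WeylSum

/-! The bilinear estimate for the von Mangoldt function minus its model along polynomials. -/

namespace Pool.Agent.H373R2.T7
open Finset Polynomial
open Pool.Agent.H807R2.Dav

/-- a bound for the size of a polynomial -/
def cf (f : ℤ[X]) : ℕ := ∑ i ∈ range (f.natDegree + 1), (f.coeff i).natAbs

lemma abs_eval_le (f : ℤ[X]) (n : ℕ) (hn : 1 ≤ n) : |f.eval (n : ℤ)| ≤ (cf f : ℤ) * (n : ℤ) ^ f.natDegree := by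
  rw [eval_eq_sum_range]
  refine (abs_sum_le_sum_abs _ _).trans ?_
  unfold cf
  push_cast
  rw [sum_mul]
  apply sum_le_sum
  intro i hi
  rw [mem_range] at hi
  rw [abs_mul, abs_pow, Nat.abs_cast]
  apply mul_le_mul_of_nonneg_left _ (abs_nonneg _)
  exact pow_le_pow_right₀ (by exact_mod_cast hn) (by omega)

/-- von Mangoldt on the integers -/
noncomputable def lamI (k : ℤ) : ℝ := if 1 ≤ k then ArithmeticFunction.vonMangoldt k.toNat else 0

/-- the model on the integers -/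
noncomputable def lamzI (z : ℕ) (k : ℤ) : ℝ := if 1 ≤ k then lamz z k.toNat else 0

lemma lamI_nonneg (k : ℤ) : 0 ≤ lamI k := by
  unfold lamI
  split_ifs
  · exact ArithmeticFunction.vonMangoldt_nonneg
  · exact le_rfl

lemma lamzI_nonneg (z : ℕ) (k : ℤ) : 0 ≤ lamzI z k := by
  unfold lamzI
  split_ifs
  · exact lamz_nonneg _ _
  · exact le_rfl

lemma mk_ee (x : ℝ) : Pool.Agent.Helper602.MK.ee x = ee x := by
  unfold ee Pool.Agent.Helper602.MK.ee
  congr 1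
  ring

lemma moment (f : ℤ[X]) (hd : 1 ≤ f.natDegree) (hl : 0 < f.leadingCoeff) (B : ℕ) (hB : 1 ≤ B) :
    ∃ p : ℕ, 1 ≤ p ∧ ∃ C : ℝ, 0 < C ∧ ∀ σ : ℤ, (σ = 1 ∨ σ = -1) → ∀ x M : ℕ, 1 ≤ x → 1 ≤ M → M ≤ B * x ^ f.natDegree →
      ∑ t ∈ range M, (‖∑ m ∈ Icc 1 x, ee ((t : ℝ) * (((σ * f.eval (m : ℤ) : ℤ) : ℝ) / M))‖ / x) ^ (2 * p) ≤ C := by
  obtain ⟨p, hp, C, hC, h⟩ := Pool.Agent.H373R2.NB.weyl_moment f hd hl B hB
  refine ⟨p, hp, C, hC, fun σ hσ x M hx hM hMx => ?_⟩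
  refine le_trans ?_ (h x M hx hM hMx)
  apply sum_le_sum
  intro t _
  have hx0 : (0 : ℝ) < x := by exact_mod_cast hx
  have e1 : ‖∑ m ∈ Icc 1 x, ee ((t : ℝ) * (((σ * f.eval (m : ℤ) : ℤ) : ℝ) / M))‖ =
      ‖∑ n ∈ Icc 1 x, Pool.Agent.Helper602.MK.ee ((t : ℝ) * ((f.eval (n : ℤ) : ℤ) : ℝ) / M)‖ := by
    rcases hσ with h1 | h1
    · rw [h1]
      congr 1
      apply sum_congr rfl
      intro m _
      rw [mk_ee]
      congr 1
      push_cast
      ring
    · rw [h1, ← RCLike.norm_conj, map_sum]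
      congr 1
      apply sum_congr rfl
      intro m _
      rw [mk_ee, conj_ee]
      congr 1
      push_cast
      ring
  rw [e1]
  set v := ‖∑ n ∈ Icc 1 x, Pool.Agent.Helper602.MK.ee ((t : ℝ) * ((f.eval (n : ℤ) : ℤ) : ℝ) / M)‖ / x with hv
  have hv0 : 0 ≤ v := by positivity
  have hv1 : v ≤ 1 := by
    rw [hv, div_le_one hx0]
    refine (norm_sum_le _ _).trans ?_
    have : ∀ n ∈ Icc 1 x, ‖Pool.Agent.Helper602.MK.ee ((t : ℝ) * ((f.eval (n : ℤ) : ℤ) : ℝ) / M)‖ ≤ 1 := by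
      intro n _
      rw [mk_ee, norm_ee]
    refine (sum_le_sum this).trans ?_
    rw [sum_const, Nat.card_Icc, nsmul_eq_mul]
    simp
  exact pow_le_pow_of_le_one hv0 hv1 (by omega)

set_option maxHeartbeats 1000000 in
theorem bil_lam (f : ℤ[X]) (hd : 1 ≤ f.natDegree) (hl : 0 < f.leadingCoeff) (B : ℕ) (hB : 1 ≤ B) (U : ℕ) :
    ∃ B0 : ℕ, ∀ E : ℕ, ∃ N0 : ℕ, ∀ N : ℕ, N0 ≤ N → ∀ x : ℕ, N ≤ B * x ^ f.natDegree → x ^ f.natDegree ≤ B * N →
    ∀ A : ℕ, A ≤ B * N → ∀ z : ℕ, Real.log N ^ B0 ≤ z → (z : ℝ) ≤ Real.log N ^ E →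
    ∀ σ : ℤ, (σ = 1 ∨ σ = -1) → ∀ G c : ℕ → ℂ, (∀ a, ‖G a‖ ≤ 1) → (∀ m, ‖c m‖ ≤ 1) →
    ‖∑ a ∈ Icc 1 A, ∑ m ∈ Icc 1 x, G a * c m *
      ((lamI (a + σ * f.eval (m : ℤ)) - lamzI z (a + σ * f.eval (m : ℤ)) : ℝ) : ℂ)‖ ≤ N * x / Real.log N ^ U := by
  set d := f.natDegree with hdd
  set c1 : ℕ := B + cf f * B with hc1
  have hc1B : 1 ≤ c1 := by omega
  obtain ⟨p, hp, C, hC, hmom⟩ := moment f hd hl (4 * c1 * B) (by nlinarith)
  set U' : ℕ := 2 * p * (U + 2) + U + 1 with hU'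
  obtain ⟨B1, hsup⟩ := sup_diff U'
  refine ⟨B1 + 1, fun E => ?_⟩
  obtain ⟨m1, h1⟩ := hsup E
  obtain ⟨m2, h2⟩ := Vz_inv_small E
  obtain ⟨m3, h3⟩ := ev_L' (max (2 * (C * c1)) (max (4 * c1) (max (2 ^ B1) (Real.log c1 + 1))))
  refine ⟨max (max m1 m2) (max m3 3), fun N hN x hx1 hx2 A hA z hz1 hz2 σ hσ G c hG hc => ?_⟩
  have hm1 : m1 ≤ N := le_trans (le_trans (le_max_left _ _) (le_max_left _ _)) hN
  have hm2 : m2 ≤ N := le_trans (le_trans (le_max_right _ _) (le_max_left _ _)) hN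
  have hL := h3 N (le_trans (le_trans (le_max_left _ _) (le_max_right _ _)) hN)
  have hN3 : 3 ≤ N := le_trans (le_trans (le_max_right _ _) (le_max_right _ _)) hN
  have hNr : (3 : ℝ) ≤ N := by exact_mod_cast hN3
  have hN0 : (0 : ℝ) < N := by linarith
  set L := Real.log N with hLd
  have hL1 : 2 * (C * c1) ≤ L := (le_max_left _ _).trans hL
  have hL2 : 4 * (c1 : ℝ) ≤ L := ((le_max_left _ _).trans (le_max_right _ _)).trans hL
  have hL3 : (2 : ℝ) ^ B1 ≤ L := (((le_max_left _ _).trans (le_max_right _ _)).trans (le_max_right _ _)).trans hL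
  have hL4 : Real.log c1 + 1 ≤ L := (((le_max_right _ _).trans (le_max_right _ _)).trans (le_max_right _ _)).trans hL
  have hc1r : (1 : ℝ) ≤ c1 := by exact_mod_cast hc1B
  have hL0 : 0 < L := by linarith
  have hLge1 : 1 ≤ L := by linarith
  have hz : 1 ≤ z := by
    have : (1 : ℝ) ≤ z := (one_le_pow₀ hLge1).trans hz1
    exact_mod_cast this
  have hx : 1 ≤ x := by
    rcases Nat.eq_zero_or_pos x with h | h
    · rw [h, zero_pow (by omega), mul_zero] at hx1; omega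
    · exact h
  have hx0 : (0 : ℝ) < x := by exact_mod_cast hx
  set H : ℕ := c1 * N with hH
  have hHN : N ≤ H := Nat.le_mul_of_pos_left _ (by omega)
  have hH1 : 1 ≤ H := by omega
  have hHr : (H : ℝ) = c1 * N := by rw [hH]; push_cast; ring
  have hlogH1 : L ≤ Real.log H := Real.log_le_log hN0 (by exact_mod_cast hHN)
  have hlogH2 : Real.log H ≤ 2 * L := by
    rw [hHr, Real.log_mul (by linarith) hN0.ne']
    linarith
  set M : ℕ := 4 * H with hM
  have hsz : ∀ m ∈ Icc 1 x, |σ * f.eval (m : ℤ)| ≤ ((cf f * B * N : ℕ) : ℤ) := by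
    intro m hm
    rw [mem_Icc] at hm
    have h4 : |σ * f.eval (m : ℤ)| = |f.eval (m : ℤ)| := by
      rcases hσ with h | h <;> rw [h] <;> simp
    rw [h4]
    refine (abs_eval_le f m hm.1).trans ?_
    have h5 : cf f * m ^ f.natDegree ≤ cf f * B * N := by
      rw [mul_assoc]
      apply Nat.mul_le_mul_left
      exact (Nat.pow_le_pow_left hm.2 _).trans hx2
    exact_mod_cast h5
  have hHc : (H : ℤ) = B * N + ((cf f * B * N : ℕ) : ℤ) := by rw [hH, hc1]; push_cast; ring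
  have hM1 : 1 ≤ M := by omega
  have hcond : ∀ a ∈ Icc 1 A, ∀ m ∈ Icc 1 x, ∀ n ∈ Icc 1 H, |(a : ℤ) + σ * f.eval (m : ℤ) - n| < M := by
    intro a ha m hm n hn
    have h4 := abs_le.1 (hsz m hm)
    rw [mem_Icc] at ha hn
    have h5 : (a : ℤ) ≤ B * N := by exact_mod_cast ha.2.trans hA
    rw [abs_lt]
    constructor <;> push_cast [hM] <;> omega
  have hAH : A ≤ H := hA.trans (by rw [hH, hc1]; nlinarith [Nat.zero_le (cf f * B * N)])
  have hmom1 := hmom σ hσ x M hx hM1 (by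
    rw [hM, hH]
    calc 4 * (c1 * N) ≤ 4 * (c1 * (B * x ^ d)) := by gcongr
      _ = 4 * c1 * B * x ^ d := by ring)
  -- the function
  set fΛ : ℕ → ℂ := fun n => ((ArithmeticFunction.vonMangoldt n - lamz z n : ℝ) : ℂ) with hfΛ
  have hzH1 : Real.log H ^ B1 ≤ z := by
    calc Real.log H ^ B1 ≤ (2 * L) ^ B1 := pow_le_pow_left₀ (hL0.le.trans hlogH1) hlogH2 _
      _ = 2 ^ B1 * L ^ B1 := mul_pow _ _ _
      _ ≤ L * L ^ B1 := mul_le_mul_of_nonneg_right hL3 (by positivity)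
      _ = L ^ (B1 + 1) := by ring
      _ ≤ z := hz1
  have hzH2 : (z : ℝ) ≤ Real.log H ^ E := hz2.trans (pow_le_pow_left₀ hL0.le hlogH1 _)
  have hsup1 : ∀ α : ℝ, ‖∑ n ∈ Icc 1 H, fΛ n * ee ((n : ℝ) * α)‖ ≤ H / L ^ U' := by
    intro α
    refine (h1 H (hm1.trans hHN) z hzH1 hzH2 α).trans ?_
    apply div_le_div_of_nonneg_left (by positivity) (by positivity)
    exact pow_le_pow_left₀ hL0.le hlogH1 _
  have hVinv := h2 N hm2 z hz hz2
  have hlz : ∀ n, lamz z n ≤ L := by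
    intro n
    unfold lamz
    split_ifs
    · exact hVinv
    · exact hL0.le
  have hfs : ∑ n ∈ Icc 1 H, ‖fΛ n‖ ^ 2 ≤ H * (2 * L) ^ 2 := by
    have h4 : ∀ n ∈ Icc 1 H, ‖fΛ n‖ ^ 2 ≤ (2 * L) ^ 2 := by
      intro n hn
      rw [mem_Icc] at hn
      apply pow_le_pow_left₀ (norm_nonneg _)
      rw [hfΛ, Complex.norm_real, Real.norm_eq_abs]
      have h5 : ArithmeticFunction.vonMangoldt n ≤ 2 * L := by
        refine ArithmeticFunction.vonMangoldt_le_log.trans (le_trans ?_ hlogH2)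
        exact Real.log_le_log (by exact_mod_cast hn.1) (by exact_mod_cast hn.2)
      have h6 : (0 : ℝ) ≤ ArithmeticFunction.vonMangoldt n := ArithmeticFunction.vonMangoldt_nonneg
      have h7 := lamz_nonneg z n
      have h8 := hlz n
      rw [abs_le]
      constructor <;> linarith
    refine (sum_le_sum h4).trans ?_
    rw [sum_const, Nat.card_Icc, nsmul_eq_mul]
    simp
  have hη : 0 < 1 / L ^ (U + 2) := by positivity
  have key := bil_main A H x M hM1 fΛ G c (fun m => σ * f.eval (m : ℤ)) (H / L ^ U') (1 / L ^ (U + 2)) p C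
    (H * (2 * L) ^ 2) hcond (hAH.trans (by omega)) (by omega) hx hsup1 hG hc hmom1 hfs hη
  have heq : ∑ a ∈ Icc 1 A, ∑ m ∈ Icc 1 x, G a * c m *
      ((lamI (a + σ * f.eval (m : ℤ)) - lamzI z (a + σ * f.eval (m : ℤ)) : ℝ) : ℂ) =
      ∑ a ∈ Icc 1 A, ∑ m ∈ Icc 1 x, G a * c m * fz fΛ H (a + σ * f.eval (m : ℤ)) := by
    apply sum_congr rfl
    intro a ha
    apply sum_congr rfl
    intro m hm
    congr 1
    unfold fz lamI lamzI
    have h4 := abs_le.1 (hsz m hm)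
    rw [mem_Icc] at ha
    have h5 : (a : ℤ) ≤ B * N := by exact_mod_cast ha.2.trans hA
    by_cases h6 : 1 ≤ (a : ℤ) + σ * f.eval (m : ℤ)
    · rw [if_pos h6, if_pos h6, if_pos ⟨h6, by omega⟩]
    · rw [if_neg h6, if_neg h6, if_neg (fun h => h6 h.1)]
      simp
  rw [heq]
  refine key.trans ?_
  have hAr : (A : ℝ) ≤ H := by exact_mod_cast hAH
  have hHr0 : (0 : ℝ) < H := by exact_mod_cast hH1
  have hMr : (M : ℝ) = 4 * H := by rw [hM]; push_cast; ring
  have t1 : C / (1 / L ^ (U + 2)) ^ (2 * p) * (H / L ^ U') * A * x / M ≤ (1 / 2) * (N * x / L ^ U) := by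
    have h4 : C / (1 / L ^ (U + 2)) ^ (2 * p) * (H / L ^ U') = C * H / L ^ (U + 1) := by
      rw [div_pow, one_pow, ← pow_mul, hU']
      have e : L ^ (2 * p * (U + 2) + U + 1) = L ^ ((U + 2) * (2 * p)) * L ^ (U + 1) := by
        rw [← pow_add]; congr 1; ring
      rw [e]
      field_simp
    rw [h4, hMr]
    have h5 : C * H / L ^ (U + 1) * A * x / (4 * H) ≤ C * H / L ^ (U + 1) * x := by
      rw [div_le_iff₀ (by positivity)]
      have h6 : 0 ≤ C * H / L ^ (U + 1) * x := by positivity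
      nlinarith
    refine h5.trans ?_
    rw [hHr]
    calc C * (c1 * N) / L ^ (U + 1) * x = (C * c1 / L) * (N * x / L ^ U) := by rw [pow_succ]; field_simp
      _ ≤ (1 / 2) * (N * x / L ^ U) := by
          apply mul_le_mul_of_nonneg_right _ (by positivity)
          rw [div_le_iff₀ hL0]; linarith
  have t2 : 1 / L ^ (U + 2) * x * Real.sqrt (H * (2 * L) ^ 2 * A) ≤ (1 / 2) * (N * x / L ^ U) := by
    have h4 : Real.sqrt (H * (2 * L) ^ 2 * A) ≤ H * (2 * L) := by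
      rw [Real.sqrt_le_left (by positivity)]
      have : H * (2 * L) ^ 2 * A ≤ H * (2 * L) ^ 2 * H := mul_le_mul_of_nonneg_left hAr (by positivity)
      calc _ ≤ _ := this
        _ = _ := by ring
    calc 1 / L ^ (U + 2) * x * Real.sqrt (H * (2 * L) ^ 2 * A) ≤ 1 / L ^ (U + 2) * x * (H * (2 * L)) :=
          mul_le_mul_of_nonneg_left h4 (by positivity)
      _ = (2 * c1 / L) * (N * x / L ^ U) := by rw [hHr, pow_add]; field_simp
      _ ≤ (1 / 2) * (N * x / L ^ U) := by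
          apply mul_le_mul_of_nonneg_right _ (by positivity)
          rw [div_le_iff₀ hL0]; linarith
  linarith

end Pool.Agent.H373R2.T7
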